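import Pool.Agent.L0h58.HX.Stm
import Pool.Agent.LLead.LT.Rnk

/-!
# TOE: large sets of rows of a random Hankel matrix have almost full rank
-/

set_option autoImplicit false

namespace Pool.Agent.L0h75.HX

open Finset Pool.Agent.L0h32.LT Pool.Agent.LLead.LT Pool.Agent.L0h58.HX

/-- extension by zero -/
def ext {k : ℕ} (r : Fin k → ZMod 2) (j : ℕ) : ZMod 2 := if h : j < k then r ⟨j, h⟩ else 0

section

variable {ι : Type}

/-- `b` is the place of the last nonzero entry -/
def IsLead (φ : ι → ℕ) (Y : ι → ZMod 2) (b : ι) : Prop := Y b ≠ 0 ∧ ∀ b', φ b < φ b' → Y b' = 0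

variable [Fintype ι]

lemma exists_lead (φ : ι → ℕ) (Y : ι → ZMod 2) (hY : Y ≠ 0) : ∃ b, IsLead φ Y b := by
  classical
  have hne : (univ.filter fun b => Y b ≠ 0).Nonempty := by
    by_contra h
    rw [not_nonempty_iff_eq_empty, filter_eq_empty_iff] at h
    apply hY
    funext b
    simpa using h (mem_univ b)
  obtain ⟨b, hb, hmax⟩ := exists_max_image _ φ hne
  refine ⟨b, (mem_filter.1 hb).2, fun b' hb' => ?_⟩
  by_contra h0
  have := hmax b' (mem_filter.2 ⟨mem_univ _, h0⟩)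
  omega

open Classical in
lemma leads_card (φ : ι → ℕ) (Z : Submodule (ZMod 2) (ι → ZMod 2)) :
    Module.finrank (ZMod 2) Z ≤ (univ.filter fun b => ∃ Y ∈ Z, IsLead φ Y b).card := by
  set Λ := univ.filter fun b => ∃ Y ∈ Z, IsLead φ Y b with hΛ
  let res : (ι → ZMod 2) →ₗ[ZMod 2] (Λ → ZMod 2) := LinearMap.funLeft (ZMod 2) (ZMod 2) (fun b : Λ => (b : ι))
  have hinj : Function.Injective (res.comp Z.subtype) := by
    rw [← LinearMap.ker_eq_bot, LinearMap.ker_eq_bot']
    intro Y hY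
    by_contra h0
    have h1 : (Y : ι → ZMod 2) ≠ 0 := fun h => h0 (Subtype.ext h)
    obtain ⟨b, hb⟩ := exists_lead φ _ h1
    have hbΛ : b ∈ Λ := mem_filter.2 ⟨mem_univ _, Y, Y.2, hb⟩
    exact hb.1 (congrFun hY ⟨b, hbΛ⟩)
  have := LinearMap.finrank_le_finrank_of_injective hinj
  rwa [Module.finrank_fintype_fun_eq_card, Fintype.card_coe] at this

/-- the admissible pairs -/
def Adm {n t : ℕ} (φ : ι → ℕ) (m' : ℕ) (P : Finset (Fin n) × (Fin t → (ι → ZMod 2))) : Prop :=
  P.1.card = m' ∧ ∃ b : Fin t → ι, (∀ j, IsLead φ (P.2 j) (b j)) ∧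
    ∀ i ∈ P.1, ∀ j, ∀ i' ∈ P.1, ∀ j', (i : ℕ) + φ (b j) = (i' : ℕ) + φ (b j') → i = i' ∧ j = j'

lemma find {n m m' N s t T : ℕ} (φ : ι → ℕ) (hφ : Function.Injective φ) (hN : ∀ b, φ b < N) (ht : 1 ≤ t)
    (hT : 1 ≤ T) (hs : (t - 1) * (N / T + 1) ≤ s) (hm : T * m' ≤ m) (r : ℕ → ZMod 2) (A : Finset (Fin n))
    (hA : m ≤ A.card)
    (hr : Module.finrank (ZMod 2) (Submodule.span (ZMod 2) ((hank r φ : Fin n → ι → ZMod 2) '' A)) + s <
      Fintype.card ι) :
    ∃ P : Finset (Fin n) × (Fin t → (ι → ZMod 2)), Adm φ m' P ∧ ∀ i ∈ P.1, ∀ j, P.2 j ⬝ᵥ hank r φ i = 0 := by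
  classical
  obtain ⟨Y0, hY0, hv⟩ := exists_Y (Submodule.span (ZMod 2) ((hank r φ : Fin n → ι → ZMod 2) '' A)) s (by omega)
  set Z := Submodule.span (ZMod 2) (Set.range Y0) with hZ
  have hZr : Module.finrank (ZMod 2) Z = s + 1 := by
    rw [hZ, finrank_span_eq_card hY0, Fintype.card_fin]
  have hZv : ∀ y ∈ Z, ∀ i ∈ A, y ⬝ᵥ hank r φ i = 0 := by
    intro y hy i hi
    have hmem : hank r φ i ∈ Submodule.span (ZMod 2) ((hank r φ : Fin n → ι → ZMod 2) '' A) :=
      Submodule.subset_span ⟨i, hi, rfl⟩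
    rw [hZ] at hy
    induction hy using Submodule.span_induction with
    | mem x hx =>
      obtain ⟨j, rfl⟩ := hx
      exact hv j _ hmem
    | zero => exact zero_dotProduct _
    | add x y _ _ hx hy => rw [add_dotProduct, hx, hy, add_zero]
    | smul a x _ hx => rw [smul_dotProduct, hx, smul_zero]
  set Λ := univ.filter fun b => ∃ Y ∈ Z, IsLead φ Y b with hΛ
  have hΛc : s + 1 ≤ Λ.card := by
    rw [← hZr]
    exact leads_card φ Z
  have hmaps : ∀ b ∈ Λ, φ b / T ∈ range (N / T + 1) := by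
    intro b _
    rw [mem_range]
    exact Nat.lt_succ_of_le (Nat.div_le_div_right (hN b).le)
  obtain ⟨q, -, hq⟩ := exists_lt_card_fiber_of_mul_lt_card_of_maps_to (n := t - 1) hmaps (by
    rw [card_range, mul_comm]
    omega)
  obtain ⟨e⟩ := Function.Embedding.nonempty_of_card_le (α := Fin t)
    (β := ↥(Λ.filter fun b => φ b / T = q)) (by
      rw [Fintype.card_fin, Fintype.card_coe]
      omega)
  have hmaps2 : ∀ i ∈ A, (i : ℕ) % T ∈ range T := fun i _ => mem_range.2 (Nat.mod_lt _ hT)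
  obtain ⟨ρ, -, hρ⟩ := exists_le_card_fiber_of_mul_le_card_of_maps_to (n := m') hmaps2
    ⟨0, mem_range.2 hT⟩ (by
      rw [card_range]
      omega)
  obtain ⟨A', hA', hA'c⟩ := exists_subset_card_eq hρ
  have hb : ∀ j : Fin t, ∃ Y ∈ Z, IsLead φ Y (e j : ι) := by
    intro j
    have h1 := (mem_filter.1 (e j).2).1
    exact (mem_filter.1 h1).2
  choose Y hYZ hYl using hb
  refine ⟨(A', Y), ⟨hA'c, fun j => (e j : ι), hYl, ?_⟩, fun i hi j => hZv _ (hYZ j) i (mem_filter.1 (hA' hi)).1⟩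
  intro i hi j i' hi' j' h
  have g1 : (i : ℕ) % T = ρ := (mem_filter.1 (hA' hi)).2
  have g2 : (i' : ℕ) % T = ρ := (mem_filter.1 (hA' hi')).2
  have g3 : φ (e j : ι) / T = q := (mem_filter.1 (e j).2).2
  have g4 : φ (e j' : ι) / T = q := (mem_filter.1 (e j').2).2
  have g5 : φ (e j : ι) ≡ φ (e j' : ι) [MOD T] := by
    have h1 : (i : ℕ) ≡ (i' : ℕ) [MOD T] := g1.trans g2.symm
    have h2 : (i : ℕ) + φ (e j : ι) ≡ (i' : ℕ) + φ (e j' : ι) [MOD T] := by rw [h]
    exact Nat.ModEq.add_left_cancel h1 h2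
  have g6 : φ (e j : ι) = φ (e j' : ι) := by
    have h1 := Nat.div_add_mod (φ (e j : ι)) T
    have h2 := Nat.div_add_mod (φ (e j' : ι)) T
    rw [g3] at h1
    rw [g4] at h2
    have h3 : φ (e j : ι) % T = φ (e j' : ι) % T := g5
    rw [h3] at h1
    exact h1.symm.trans h2
  have g7 : j = j' := by
    have h1 : (e j : ι) = (e j' : ι) := hφ g6
    exact e.injective (Subtype.ext h1)
  refine ⟨?_, g7⟩
  rw [g6] at h
  exact Fin.ext (Nat.add_right_cancel h)

open Classical in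
lemma count {n m' N t : ℕ} (φ : ι → ℕ) (hφ : Function.Injective φ) (hN : ∀ b, φ b < N)
    (P : Finset (Fin n) × (Fin t → (ι → ZMod 2))) (hP : Adm φ m' P) :
    (univ.filter fun r : Fin (n + N) → ZMod 2 => ∀ i ∈ P.1, ∀ j, P.2 j ⬝ᵥ hank (ext r) φ i = 0).card *
      2 ^ (t * m') ≤ 2 ^ (n + N) := by
  obtain ⟨hc, b, hl, hinj⟩ := hP
  let f : Fin n × Fin t → Fin (n + N) := fun p =>
    ⟨(p.1 : ℕ) + φ (b p.2), Nat.add_lt_add p.1.2 (hN _)⟩
  set L := (P.1 ×ˢ (univ : Finset (Fin t))).image f with hL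
  have hLc : L.card = t * m' := by
    rw [hL, card_image_of_injOn, card_product, card_univ, Fintype.card_fin, hc, mul_comm]
    intro p hp p' hp' h
    rw [mem_coe, mem_product] at hp hp'
    have h1 := congrArg Fin.val h
    obtain ⟨g1, g2⟩ := hinj p.1 hp.1 p.2 p'.1 hp'.1 p'.2 h1
    exact Prod.ext g1 g2
  have hle : t * m' ≤ n + N := by
    rw [← hLc]
    simpa using card_le_univ L
  have key : (univ.filter fun r : Fin (n + N) → ZMod 2 => ∀ i ∈ P.1, ∀ j, P.2 j ⬝ᵥ hank (ext r) φ i = 0).card ≤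
      2 ^ (n + N - t * m') := by
    have h1 : Fintype.card (↥(Lᶜ) → ZMod 2) = 2 ^ (n + N - t * m') := by
      rw [Fintype.card_fun, ZMod.card, Fintype.card_coe, card_compl, Fintype.card_fin, hLc]
    rw [← h1, ← card_univ]
    apply card_le_card_of_injOn (fun r => fun k : ↥(Lᶜ) => r k)
    · intro r _
      exact mem_coe.2 (mem_univ _)
    · intro r hr r' hr' h
      rw [mem_coe, mem_filter] at hr hr'
      by_contra hne
      have hD : (univ.filter fun k : Fin (n + N) => r k ≠ r' k).Nonempty := by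
        by_contra h0
        rw [not_nonempty_iff_eq_empty, filter_eq_empty_iff] at h0
        apply hne
        funext k
        simpa using h0 (mem_univ k)
      obtain ⟨k0, hk0, hmin⟩ := exists_min_image _ (fun k : Fin (n + N) => (k : ℕ)) hD
      have hk0' := (mem_filter.1 hk0).2
      have hkL : k0 ∈ L := by
        by_contra h0
        exact hk0' (congrFun h ⟨k0, mem_compl.2 h0⟩)
      rw [hL, mem_image] at hkL
      obtain ⟨⟨i, j⟩, hp, hpe⟩ := hkL
      rw [mem_product] at hp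
      have hkv : (i : ℕ) + φ (b j) = (k0 : ℕ) := congrArg Fin.val hpe
      have e1 := hr.2 i hp.1 j
      have e2 := hr'.2 i hp.1 j
      have e3 : ∑ x, P.2 j x * (ext r ((i : ℕ) + φ x) - ext r' ((i : ℕ) + φ x)) = 0 := by
        have e4 : ∑ x, P.2 j x * (ext r ((i : ℕ) + φ x) - ext r' ((i : ℕ) + φ x)) =
            (P.2 j ⬝ᵥ hank (ext r) φ i) - (P.2 j ⬝ᵥ hank (ext r') φ i) := by
          unfold dotProduct hank
          rw [← sum_sub_distrib]
          refine sum_congr rfl fun x _ => ?_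
          rw [mul_sub]
        rw [e4, e1, e2, sub_zero]
      rw [sum_eq_single (b j)] at e3
      · rcases mul_eq_zero.1 e3 with h1 | h1
        · exact (hl j).1 h1
        · apply hk0'
          have h2 := sub_eq_zero.1 h1
          unfold ext at h2
          have hlt : (i : ℕ) + φ (b j) < n + N := Nat.add_lt_add i.2 (hN _)
          rw [dif_pos hlt, dif_pos hlt] at h2
          have h3 : (⟨(i : ℕ) + φ (b j), hlt⟩ : Fin (n + N)) = k0 := Fin.ext hkv
          rwa [h3] at h2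
      · intro x _ hx
        rcases lt_trichotomy (φ x) (φ (b j)) with h1 | h1 | h1
        · have hlt : (i : ℕ) + φ x < n + N := Nat.add_lt_add i.2 (hN _)
          have h2 : r ⟨(i : ℕ) + φ x, hlt⟩ = r' ⟨(i : ℕ) + φ x, hlt⟩ := by
            by_contra h3
            have h4 := hmin ⟨(i : ℕ) + φ x, hlt⟩ (mem_filter.2 ⟨mem_univ _, h3⟩)
            have h5 : (k0 : ℕ) ≤ (i : ℕ) + φ x := h4
            omega
          unfold ext
          rw [dif_pos hlt, dif_pos hlt, h2, sub_self, mul_zero]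
        · exact absurd (hφ h1) hx
        · rw [(hl j).2 x h1, zero_mul]
      · intro h1
        exact absurd (mem_univ _) h1
  calc _ ≤ 2 ^ (n + N - t * m') * 2 ^ (t * m') := Nat.mul_le_mul_right _ key
    _ = 2 ^ (n + N) := by
      rw [← pow_add]
      congr 1
      omega

end

theorem t_TOE : S_TOE := by
  classical
  intro n m m' N s t T ι _ φ hφ hN ht hT hs hm hcond
  by_contra hcon
  push Not at hcon
  have hcard : Fintype.card ι ≤ N := by
    have := Fintype.card_le_of_injective (fun b => (⟨φ b, hN b⟩ : Fin N)) fun b b' h =>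
      hφ (congrArg Fin.val h)
    simpa using this
  let Idx : Finset (Finset (Fin n) × (Fin t → (ι → ZMod 2))) := univ.filter fun P => Adm φ m' P
  let Sol : Finset (Fin n) × (Fin t → (ι → ZMod 2)) → Finset (Fin (n + N) → ZMod 2) := fun P =>
    univ.filter fun r : Fin (n + N) → ZMod 2 => ∀ i ∈ P.1, ∀ j, P.2 j ⬝ᵥ hank (ext r) φ i = 0
  have hcov : (univ : Finset (Fin (n + N) → ZMod 2)) ⊆ Idx.biUnion Sol := by
    intro r _
    obtain ⟨A, hA, hr⟩ := hcon (ext r)
    obtain ⟨P, hP, hPr⟩ := find (m' := m') φ hφ hN ht hT hs hm (ext r) A hA hr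
    rw [mem_biUnion]
    exact ⟨P, mem_filter.2 ⟨mem_univ _, hP⟩, mem_filter.2 ⟨mem_univ _, hPr⟩⟩
  have hidx : Idx.card ≤ n.choose m' * 2 ^ (t * N) := by
    calc Idx.card ≤ (powersetCard m' (univ : Finset (Fin n)) ×ˢ
          (univ : Finset (Fin t → (ι → ZMod 2)))).card := by
          apply card_le_card
          intro P hP
          obtain ⟨-, hA, -⟩ := mem_filter.1 hP
          exact mem_product.2 ⟨mem_powersetCard.2 ⟨subset_univ _, hA⟩, mem_univ _⟩
      _ = n.choose m' * (2 ^ Fintype.card ι) ^ t := by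
          rw [card_product, card_powersetCard, card_univ, card_univ, Fintype.card_fin,
            Fintype.card_fun, Fintype.card_fun, ZMod.card, Fintype.card_fin]
      _ ≤ n.choose m' * 2 ^ (t * N) := by
          apply Nat.mul_le_mul_left
          rw [← pow_mul]
          apply Nat.pow_le_pow_right (by norm_num)
          rw [mul_comm]
          exact Nat.mul_le_mul_left _ hcard
  have hall : 2 ^ (n + N) * 2 ^ (t * m') ≤ (n.choose m' * 2 ^ (t * N)) * 2 ^ (n + N) := by
    calc 2 ^ (n + N) * 2 ^ (t * m')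
        = (univ : Finset (Fin (n + N) → ZMod 2)).card * 2 ^ (t * m') := by
          rw [card_univ, Fintype.card_fun, ZMod.card, Fintype.card_fin]
      _ ≤ (Idx.biUnion Sol).card * 2 ^ (t * m') := Nat.mul_le_mul_right _ (card_le_card hcov)
      _ ≤ (∑ P ∈ Idx, (Sol P).card) * 2 ^ (t * m') := Nat.mul_le_mul_right _ card_biUnion_le
      _ = ∑ P ∈ Idx, (Sol P).card * 2 ^ (t * m') := by rw [sum_mul]
      _ ≤ ∑ P ∈ Idx, 2 ^ (n + N) := sum_le_sum fun P hP => count φ hφ hN P (mem_filter.1 hP).2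
      _ = Idx.card * 2 ^ (n + N) := by rw [sum_const, smul_eq_mul]
      _ ≤ _ := Nat.mul_le_mul_right _ hidx
  have h2 : 2 ^ (t * m') ≤ n.choose m' * 2 ^ (t * N) := by
    have hp : 0 < 2 ^ (n + N) := by positivity
    apply Nat.le_of_mul_le_mul_left _ hp
    calc 2 ^ (n + N) * 2 ^ (t * m') ≤ _ := hall
      _ = _ := by ring
  omega

end Pool.Agent.L0h75.HX
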